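import Pool.Agent.Y366.PG.Fin

/-!
# Homomorphisms to odd cycles: infinite graphs, and planar graphs plus one edge

The starting files `PlanarGirth` and `SparseGraphs` map finite planar graphs of girth at least
`4 k + 2`, and finite graphs in which every nonempty vertex set `D` spans at most
`(1 + 1/(2k)) (|D| - 1)` edges, to the cycle `C_{2k+1}`. Here both are extended to infinite graphs,
and the planar theorem is strengthened: a planar graph of girth at least `4 k + 2` **plus one edge**
joining two vertices at distance at least `2 k` has a homomorphism to `C_{2k+1}` (the distance is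
necessary, since otherwise a short odd cycle may arise). In other words the images of any two
vertices at distance at least `2 k` can be made adjacent.

For the new part the sparsity inequality of planar graphs is sharpened by one: if a set `A` of edges
is not a forest then `(2k+1) (|A| - rk A + 1) ≤ |A|`, since the dimension of the cycle space of `A` is
smaller than the number of regions.

`IsPlanar` (rotation system with Euler's formula) and `HasStraightLineDrawing` are the definitions
of the starting files, for finite graphs. An infinite graph is treated as planar if every finite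
set of its vertices is contained in a finite induced subgraph which is planar.
-/

set_option autoImplicit false

namespace Pool.Agent.Results.MP_da739a_co.InfiniteAndPlusEdge

open SimpleGraph
open Pool.Agent.H239R2.Planar (IsPlanar HasStraightLineDrawing)

/-- Let `k ≥ 1` and let `G` be a simple graph, finite or infinite.
(1) If every nonempty finite vertex set `D` spans at most `(1 + 1/(2k)) (|D| - 1)` edges, then `G`
has a homomorphism to `C_{2k+1}`.
(2) If every finite set of vertices lies in a finite planar induced subgraph and the girth is at
least `4 k + 2`, then `G` has a homomorphism to `C_{2k+1}`.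
(3) If moreover `x`, `y` are two vertices such that every walk from `x` to `y` has length at least
`2 k`, then there is a homomorphism `F` from `G` to `C_{2k+1}` such that `F x` and `F y` are adjacent;
in other words, `G` plus the edge `xy` has a homomorphism to `C_{2k+1}`. -/
theorem result {V : Type*} (G : SimpleGraph V) (k : ℕ) (hk : 1 ≤ k) :
    ((∀ D : Finset V, D.Nonempty →
        (Nat.card {e : Sym2 V // e ∈ G.edgeSet ∧ ∀ v ∈ e, v ∈ D} : ℝ)
          ≤ (1 + 1 / (2 * k)) * ((D.card : ℝ) - 1)) →
      Nonempty (G →g cycleGraph (2 * k + 1))) ∧
    ((∀ S : Finset V, ∃ (W : Type) (_ : Fintype W) (H : SimpleGraph W) (f : H ↪g G),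
        (S : Set V) ⊆ Set.range f ∧ (IsPlanar H ∨ HasStraightLineDrawing H)) →
      ((4 * k + 2 : ℕ) : ℕ∞) ≤ G.egirth → Nonempty (G →g cycleGraph (2 * k + 1))) ∧
    ((∀ S : Finset V, ∃ (W : Type) (_ : Fintype W) (H : SimpleGraph W) (f : H ↪g G),
        (S : Set V) ⊆ Set.range f ∧ IsPlanar H) →
      ((4 * k + 2 : ℕ) : ℕ∞) ≤ G.egirth →
        ∀ x y : V, (∀ p : G.Walk x y, 2 * k ≤ p.length) →
          ∃ F : G →g cycleGraph (2 * k + 1), (cycleGraph (2 * k + 1)).Adj (F x) (F y)) :=
  ⟨Pool.Agent.Y366.PG.sparse G k hk, Pool.Agent.Y366.PG.planar G k hk,
    fun h1 h2 x y h3 => Pool.Agent.Y366.PG.plus_edge_inf G k hk h1 h2 x y h3⟩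

end Pool.Agent.Results.MP_da739a_co.InfiniteAndPlusEdge
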